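import Pool.Agent.N430.CLT.Taylor

set_option autoImplicit false

/-! The central limit theorem for sums over primes of local conditions, on average over short intervals. -/

namespace Pool.Agent.N430.CLT

open Finset Filter Topology MeasureTheory ProbabilityTheory

/-- convergence of the characteristic functions -/
theorem char_tendsto (d : Dat) (N : ℕ → ℕ) (hN : ∀ K : ℕ, ∀ᶠ x : ℕ in atTop, x ^ K ≤ N x)
    (hV : Tendsto (fun x => d.V x) atTop atTop) (t : ℝ) :
    Tendsto (fun x => avg (N x) (fun m => Complex.exp ((t * (d.S x m / √(d.V x)) : ℝ) * Complex.I)))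
      atTop (𝓝 (Complex.exp (-((t ^ 2 / 2 : ℝ) : ℂ)))) := by
  rw [Metric.tendsto_atTop]
  intro ε hε
  set u : ℝ := 2 * |t| + 1 with hu
  have hu1 : 1 ≤ u := by have := abs_nonneg t; linarith
  have hu0 : 0 < u := by linarith
  -- choice of K
  have hK0 : Tendsto (fun k : ℕ => 4 * Real.exp (u ^ 2) * (1 / 2 : ℝ) ^ k) atTop (𝓝 0) := by
    have := tendsto_pow_atTop_nhds_zero_of_lt_one (r := (1 / 2 : ℝ)) (by norm_num) (by norm_num)
    simpa using this.const_mul (4 * Real.exp (u ^ 2))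
  obtain ⟨k, hk⟩ := (hK0.eventually (gt_mem_nhds (show (0 : ℝ) < ε / 4 by positivity))).exists
  set K := 2 * k with hK
  have hKe : Even K := even_two_mul k
  have hk2 : 4 * Real.exp (u ^ 2) * (1 / 2 : ℝ) ^ K < ε / 4 := by
    refine lt_of_le_of_lt ?_ hk
    apply mul_le_mul_of_nonneg_left _ (by positivity)
    exact pow_le_pow_of_le_one (by norm_num) (by norm_num) (by omega)
  have hσ : Tendsto (fun x => √(d.V x)) atTop atTop := Real.tendsto_sqrt_atTop.comp hV
  have h1 : ∀ᶠ x : ℕ in atTop, u ≤ √(d.V x) := hσ.eventually_ge_atTop u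
  have h2 : Tendsto (fun x => 2 * |t| ^ 3 / √(d.V x)) atTop (𝓝 0) := hσ.const_div_atTop _
  have h3 : Tendsto (fun x : ℕ => 2 * ((K : ℝ) + 1) / (x : ℝ)) atTop (𝓝 0) :=
    tendsto_const_nhds.div_atTop tendsto_natCast_atTop_atTop
  have hev := ((h1.and (h2.eventually (gt_mem_nhds (show (0 : ℝ) < ε / 4 by positivity)))).and
    ((h3.eventually (gt_mem_nhds (show (0 : ℝ) < ε / 4 by positivity))).and
    ((hN (2 * K + 1)).and (eventually_ge_atTop 1))))
  obtain ⟨x₀, hx₀⟩ := eventually_atTop.1 hev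
  refine ⟨x₀, fun x hx => ?_⟩
  obtain ⟨⟨g1, g2⟩, g3, g4, g5⟩ := hx₀ x hx
  have hx1 : (1 : ℝ) ≤ x := by exact_mod_cast g5
  have hN0 : 0 < N x := lt_of_lt_of_le (Nat.pow_pos g5) g4
  set σ := √(d.V x) with hσd
  have hσ0 : 0 < σ := by linarith
  have hσ2 : σ ^ 2 = d.V x := Real.sq_sqrt (d.V_nonneg x)
  set y := t / σ with hy
  have hyabs : |y| = |t| / σ := by rw [hy, abs_div, abs_of_pos hσ0]
  have hy1 : |y| ≤ 1 := by
    rw [hyabs, div_le_one hσ0]
    have := abs_nonneg t
    linarith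
  have efun : (fun m => Complex.exp ((t * (d.S x m / σ) : ℝ) * Complex.I)) =
      fun m => Complex.exp ((y * d.S x m : ℝ) * Complex.I) := by
    funext m
    rw [hy, show t * (d.S x m / σ) = t / σ * d.S x m by ring]
  rw [efun, dist_eq_norm]
  have a1 := compare d x (N x) K g5 hN0 hKe hy1
  have a2 := char_periodic d x hy1
  have e1 : y ^ 2 * d.V x / 2 = t ^ 2 / 2 := by
    rw [hy, ← hσ2]
    field_simp
  rw [e1] at a2
  -- the bound on the K-th moment
  have a3 := abs_moment d x K (s := u / σ) (by positivity) (by rw [div_le_one hσ0]; exact g1)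
  have e2 : (u / σ) ^ 2 * d.V x = u ^ 2 := by
    rw [← hσ2]
    field_simp
  rw [e2] at a3
  have a4 : 2 * (|y| ^ K / (K.factorial : ℝ) * avgP (prim x) (fun m => |d.S x m| ^ K)) ≤
      4 * Real.exp (u ^ 2) * (1 / 2 : ℝ) ^ K := by
    have h5 : |y| ≤ (1 / 2) * (u / σ) := by
      rw [hyabs, ← mul_div_assoc]
      apply div_le_div_of_nonneg_right _ hσ0.le
      linarith
    have h6 : |y| ^ K ≤ (1 / 2 : ℝ) ^ K * (u / σ) ^ K := by
      rw [← mul_pow]
      exact pow_le_pow_left₀ (abs_nonneg _) h5 K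
    have h7 : 0 ≤ avgP (prim x) (fun m => |d.S x m| ^ K) := avgP_nonneg' _ fun m => by positivity
    have h8 : (0 : ℝ) < K.factorial := by exact_mod_cast K.factorial_pos
    calc 2 * (|y| ^ K / (K.factorial : ℝ) * avgP (prim x) (fun m => |d.S x m| ^ K))
        ≤ 2 * ((1 / 2 : ℝ) ^ K * (u / σ) ^ K / (K.factorial : ℝ) *
          avgP (prim x) (fun m => |d.S x m| ^ K)) := by gcongr
      _ = 2 * (1 / 2 : ℝ) ^ K * ((u / σ) ^ K / (K.factorial : ℝ) *
          avgP (prim x) (fun m => |d.S x m| ^ K)) := by ring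
      _ ≤ 2 * (1 / 2 : ℝ) ^ K * (2 * Real.exp (u ^ 2)) := by gcongr
      _ = _ := by ring
  have a5 : 2 * ((K : ℝ) + 1) * (x : ℝ) ^ (2 * K) / (N x : ℝ) ≤ 2 * (K + 1) / x := by
    have h9 : ((x : ℝ)) ^ (2 * K + 1) ≤ (N x : ℝ) := by exact_mod_cast g4
    rw [div_le_div_iff₀ (by exact_mod_cast hN0) (by linarith)]
    calc 2 * ((K : ℝ) + 1) * (x : ℝ) ^ (2 * K) * x = 2 * (K + 1) * (x : ℝ) ^ (2 * K + 1) := by
          rw [pow_succ]; ring
      _ ≤ _ := by gcongr
  have a6 : 2 * |y| ^ 3 * d.V x = 2 * |t| ^ 3 / σ := by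
    rw [hyabs, ← hσ2]
    field_simp
  rw [a6] at a2
  have e3 : avg (N x) (fun m => Complex.exp ((y * d.S x m : ℝ) * Complex.I)) -
      Complex.exp (-((t ^ 2 / 2 : ℝ) : ℂ)) =
      (avg (N x) (fun m => Complex.exp ((y * d.S x m : ℝ) * Complex.I)) -
        avgP (prim x) (fun m => Complex.exp ((y * d.S x m : ℝ) * Complex.I))) +
      (avgP (prim x) (fun m => Complex.exp ((y * d.S x m : ℝ) * Complex.I)) -
        Complex.exp (-((t ^ 2 / 2 : ℝ) : ℂ))) := by ring
  rw [e3]
  refine lt_of_le_of_lt (norm_add_le _ _) ?_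
  linarith

/-- the law of `Y` under the uniform distribution on `1 ≤ m ≤ N` (a point mass if `N = 0`) -/
noncomputable def law (N : ℕ) (Y : ℕ → ℝ) : Measure ℝ :=
  if N = 0 then Measure.dirac 0 else
    (N : ENNReal)⁻¹ • ∑ m ∈ Icc 1 N, Measure.dirac (Y m)

instance (N : ℕ) (Y : ℕ → ℝ) : IsProbabilityMeasure (law N Y) := by
  unfold law
  split_ifs with h
  · infer_instance
  · constructor
    simp only [Measure.smul_apply, Measure.coe_finset_sum, Finset.sum_apply, measure_univ,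
      Finset.sum_const, Nat.card_Icc, Nat.add_sub_cancel, nsmul_eq_mul, mul_one, smul_eq_mul]
    exact ENNReal.inv_mul_cancel (by exact_mod_cast h) (ENNReal.natCast_ne_top N)

lemma charFun_law {N : ℕ} (hN : N ≠ 0) (Y : ℕ → ℝ) (t : ℝ) :
    charFun (law N Y) t = avg N (fun m => Complex.exp ((t * Y m : ℝ) * Complex.I)) := by
  rw [charFun_apply_real]
  unfold law avg
  rw [if_neg hN, integral_smul_measure, integral_finsetSum_measure (by
    intro i _
    exact integrable_dirac (by simp))]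
  simp only [integral_dirac]
  rw [ENNReal.toReal_inv, ENNReal.toReal_natCast, Complex.real_smul]
  push_cast
  rw [div_eq_inv_mul]

lemma law_Iic {N : ℕ} (hN : N ≠ 0) (Y : ℕ → ℝ) (c : ℝ) :
    (law N Y (Set.Iic c)).toReal = (#{m ∈ Icc 1 N | Y m ≤ c} : ℝ) / N := by
  unfold law
  rw [if_neg hN]
  simp only [Measure.smul_apply, Measure.coe_finset_sum, Finset.sum_apply, smul_eq_mul]
  rw [ENNReal.toReal_mul, ENNReal.toReal_inv, ENNReal.toReal_natCast, ENNReal.toReal_sum (by
    intro a _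
    exact measure_ne_top _ _)]
  rw [Finset.card_filter]
  push_cast
  rw [div_eq_inv_mul]
  congr 1
  refine Finset.sum_congr rfl fun m _ => ?_
  rw [Measure.dirac_apply' _ measurableSet_Iic]
  by_cases h : Y m ≤ c
  · rw [Set.indicator_of_mem (by exact h), if_pos h]; simp
  · rw [Set.indicator_of_notMem (by exact h), if_neg h]; simp

/-- the distribution function of the standard normal law -/
noncomputable def Phi (t : ℝ) : ℝ := (gaussianReal 0 1 (Set.Iic t)).toReal

/-- **The central limit theorem** for `∑_{p ≤ x} X_p(m)`, `m ≤ N(x)` -/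
theorem clt (d : Dat) (N : ℕ → ℕ) (hN : ∀ K : ℕ, ∀ᶠ x : ℕ in atTop, x ^ K ≤ N x)
    (hV : Tendsto (fun x => d.V x) atTop atTop) (t : ℝ) :
    Tendsto (fun x => (#{m ∈ Icc 1 (N x) | d.S x m / √(d.V x) ≤ t} : ℝ) / N x) atTop
      (𝓝 (Phi t)) := by
  have hN1 : ∀ᶠ x : ℕ in atTop, N x ≠ 0 := by
    filter_upwards [hN 0] with x hx
    rw [pow_zero] at hx
    omega
  let μ : ℕ → ProbabilityMeasure ℝ := fun x => ⟨law (N x) (fun m => d.S x m / √(d.V x)), inferInstance⟩
  let ν : ProbabilityMeasure ℝ := ⟨gaussianReal 0 1, inferInstance⟩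
  have h1 : Tendsto μ atTop (𝓝 ν) := by
    rw [ProbabilityMeasure.tendsto_iff_tendsto_charFun]
    intro s
    have h2 := char_tendsto d N hN hV s
    have h3 : charFun (ν : Measure ℝ) s = Complex.exp (-((s ^ 2 / 2 : ℝ) : ℂ)) := by
      change charFun (gaussianReal 0 1) s = _
      rw [charFun_gaussianReal]
      congr 1
      push_cast
      ring
    rw [h3]
    refine h2.congr' ?_
    filter_upwards [hN1] with x hx
    change _ = charFun (law (N x) (fun m => d.S x m / √(d.V x))) s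
    rw [charFun_law hx]
  have h2 : (ν : Measure ℝ) (frontier (Set.Iic t)) = 0 := by
    rw [frontier_Iic]
    change gaussianReal 0 1 {t} = 0
    have := noAtoms_gaussianReal (μ := 0) (v := 1) one_ne_zero
    exact measure_singleton t
  have h3 := ProbabilityMeasure.tendsto_measure_of_null_frontier_of_tendsto' h1 h2
  have h4 := (ENNReal.tendsto_toReal (measure_ne_top (ν : Measure ℝ) (Set.Iic t))).comp h3
  refine (h4.congr' ?_)
  filter_upwards [hN1] with x hx
  change (law (N x) (fun m => d.S x m / √(d.V x)) (Set.Iic t)).toReal = _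
  rw [law_Iic hx]

end Pool.Agent.N430.CLT
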