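import Pool.Agent.N430.CLT.Limit

set_option autoImplicit false

/-! Moving thresholds in the central limit theorem. -/

namespace Pool.Agent.N430.CLT

open Finset Filter Topology MeasureTheory ProbabilityTheory

lemma Phi_eq (t : ℝ) :
    Phi t = ∫ u in Set.Iic t, (√(2 * Real.pi))⁻¹ * Real.exp (-u ^ 2 / 2) := by
  unfold Phi
  rw [gaussianReal_apply_eq_integral 0 one_ne_zero, ENNReal.toReal_ofReal]
  · unfold gaussianPDFReal
    simp
  · exact integral_nonneg fun u => gaussianPDFReal_nonneg 0 1 u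

lemma Phi_mono {s t : ℝ} (h : s ≤ t) : Phi s ≤ Phi t := by
  unfold Phi
  exact ENNReal.toReal_mono (measure_ne_top _ _) (measure_mono (Set.Iic_subset_Iic.2 h))

lemma Phi_lip {s t : ℝ} (h : s ≤ t) : Phi t - Phi s ≤ t - s := by
  rw [Phi_eq, Phi_eq]
  have hint : Integrable (fun u : ℝ => (√(2 * Real.pi))⁻¹ * Real.exp (-u ^ 2 / 2)) := by
    have := integrable_gaussianPDFReal 0 1
    unfold gaussianPDFReal at this
    simpa using this
  rw [intervalIntegral.integral_Iic_sub_Iic hint.integrableOn hint.integrableOn]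
  have h1 : ∀ u ∈ Set.Icc s t, (√(2 * Real.pi))⁻¹ * Real.exp (-u ^ 2 / 2) ≤ 1 := by
    intro u _
    have h2 : (√(2 * Real.pi))⁻¹ ≤ 1 := by
      apply inv_le_one_of_one_le₀
      rw [Real.one_le_sqrt]
      have := Real.pi_gt_three
      linarith
    have h3 : Real.exp (-u ^ 2 / 2) ≤ 1 := by
      rw [Real.exp_le_one_iff]
      have : 0 ≤ u ^ 2 := sq_nonneg u
      linarith
    have h4 : 0 ≤ (√(2 * Real.pi))⁻¹ := by positivity
    calc _ ≤ 1 * 1 := mul_le_mul h2 h3 (Real.exp_pos _).le zero_le_one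
      _ = 1 := one_mul 1
  have h5 := intervalIntegral.integral_mono_on h (hint.intervalIntegrable)
    (intervalIntegrable_const (c := (1 : ℝ))) h1
  simpa using h5

theorem clt_threshold (d : Dat) (N : ℕ → ℕ) (hN : ∀ K : ℕ, ∀ᶠ x : ℕ in atTop, x ^ K ≤ N x)
    (hV : Tendsto (fun x => d.V x) atTop atTop) (t : ℝ) (a : ℕ → ℝ)
    (ha : Tendsto a atTop (𝓝 t)) :
    Tendsto (fun x => (#{m ∈ Icc 1 (N x) | d.S x m / √(d.V x) ≤ a x} : ℝ) / N x) atTop
      (𝓝 (Phi t)) := by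
  rw [Metric.tendsto_atTop]
  intro ε hε
  have h1 := clt d N hN hV (t + ε / 3)
  have h2 := clt d N hN hV (t - ε / 3)
  rw [Metric.tendsto_atTop] at h1 h2 ha
  obtain ⟨x₁, hx₁⟩ := h1 (ε / 3) (by positivity)
  obtain ⟨x₂, hx₂⟩ := h2 (ε / 3) (by positivity)
  obtain ⟨x₃, hx₃⟩ := ha (ε / 3) (by positivity)
  refine ⟨max x₁ (max x₂ x₃), fun x hx => ?_⟩
  have g1 := hx₁ x ((le_max_left _ _).trans hx)
  have g2 := hx₂ x (((le_max_left _ _).trans (le_max_right _ _)).trans hx)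
  have g3 := hx₃ x (((le_max_right _ _).trans (le_max_right _ _)).trans hx)
  rw [Real.dist_eq, abs_lt] at g1 g2 g3
  have m1 : (#{m ∈ Icc 1 (N x) | d.S x m / √(d.V x) ≤ a x} : ℝ) / N x ≤
      (#{m ∈ Icc 1 (N x) | d.S x m / √(d.V x) ≤ t + ε / 3} : ℝ) / N x := by
    apply div_le_div_of_nonneg_right _ (Nat.cast_nonneg _)
    have : {m ∈ Icc 1 (N x) | d.S x m / √(d.V x) ≤ a x} ⊆
        {m ∈ Icc 1 (N x) | d.S x m / √(d.V x) ≤ t + ε / 3} := by
      intro m hm
      rw [mem_filter] at hm ⊢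
      exact ⟨hm.1, hm.2.trans (by linarith)⟩
    exact_mod_cast card_le_card this
  have m2 : (#{m ∈ Icc 1 (N x) | d.S x m / √(d.V x) ≤ t - ε / 3} : ℝ) / N x ≤
      (#{m ∈ Icc 1 (N x) | d.S x m / √(d.V x) ≤ a x} : ℝ) / N x := by
    apply div_le_div_of_nonneg_right _ (Nat.cast_nonneg _)
    have : {m ∈ Icc 1 (N x) | d.S x m / √(d.V x) ≤ t - ε / 3} ⊆
        {m ∈ Icc 1 (N x) | d.S x m / √(d.V x) ≤ a x} := by
      intro m hm
      rw [mem_filter] at hm ⊢
      exact ⟨hm.1, hm.2.trans (by linarith)⟩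
    exact_mod_cast card_le_card this
  have l1 := Phi_lip (s := t) (t := t + ε / 3) (by linarith)
  have l2 := Phi_lip (s := t - ε / 3) (t := t) (by linarith)
  rw [Real.dist_eq, abs_lt]
  constructor <;> linarith [g1.1, g1.2, g2.1, g2.2]

/-- the growth condition -/
lemma growth (N : ℕ → ℕ) (h : Tendsto (fun x : ℕ => Real.log (N x) / Real.log x) atTop atTop) :
    ∀ K : ℕ, ∀ᶠ x : ℕ in atTop, x ^ K ≤ N x := by
  intro K
  filter_upwards [h.eventually_ge_atTop ((K : ℝ) + 1), eventually_ge_atTop 2] with x h1 h2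
  have hx1 : (2 : ℝ) ≤ x := by exact_mod_cast h2
  have hlog : 0 < Real.log x := Real.log_pos (by linarith)
  rw [le_div_iff₀ hlog] at h1
  have hK : (0 : ℝ) ≤ K := Nat.cast_nonneg K
  have h3 : (K : ℝ) * Real.log x ≤ Real.log (N x) := by nlinarith
  have h4 : 0 < Real.log (N x) := lt_of_lt_of_le (by positivity) h1
  have h5 : (0 : ℝ) < N x := by
    by_contra hcon
    have : (N x : ℝ) = 0 := le_antisymm (not_lt.1 hcon) (Nat.cast_nonneg _)
    rw [this, Real.log_zero] at h4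
    exact lt_irrefl _ h4
  have h6 : Real.log ((x : ℝ) ^ K) ≤ Real.log (N x) := by rwa [Real.log_pow]
  have h7 := (Real.log_le_log_iff (by positivity) h5).1 h6
  exact_mod_cast h7

end Pool.Agent.N430.CLT
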