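import Pool.Agent.N430.CLT.Moment

set_option autoImplicit false

/-! The characteristic function of the sum in the periodic (independent) model. -/

namespace Pool.Agent.N430.CLT

open Finset

lemma Dat.v_nonneg (d : Dat) (p : ℕ) : 0 ≤ d.v p := avgP_nonneg' _ fun m => sq_nonneg _

lemma Dat.v_le_one (d : Dat) {p : ℕ} (hp : p.Prime) : d.v p ≤ 1 := by
  have h := avgP_mono (N := p) (fun m => d.X p m ^ 2) (fun _ => 1) (fun m => by
    have := d.bd p hp m
    rw [← sq_abs]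
    exact pow_le_one₀ (abs_nonneg _) this)
  rw [avgP_const hp.pos] at h
  exact h

lemma Dat.V_nonneg (d : Dat) (x : ℕ) : 0 ≤ d.V x := Finset.sum_nonneg fun p _ => d.v_nonneg p

lemma exp_le_quad {y : ℝ} (hy : |y| ≤ 1) : Real.exp y ≤ 1 + y + y ^ 2 := by
  have := Real.abs_exp_sub_one_sub_id_le hy
  have h2 := (abs_le.1 this).2
  linarith

lemma avgP_exp_le (d : Dat) {p : ℕ} (hp : p.Prime) {s : ℝ} (hs : |s| ≤ 1) :
    avgP p (fun m => Real.exp (s * d.X p m)) ≤ Real.exp (s ^ 2 * d.v p) := by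
  have h1 : avgP p (fun m => Real.exp (s * d.X p m)) ≤
      avgP p (fun m => 1 + s * d.X p m + s ^ 2 * d.X p m ^ 2) := by
    apply avgP_mono
    intro m
    have hb : |s * d.X p m| ≤ 1 := by
      rw [abs_mul]
      exact mul_le_one₀ hs (abs_nonneg _) (d.bd p hp m)
    have := exp_le_quad hb
    rw [mul_pow] at this
    exact this
  have h2 : avgP p (fun m => 1 + s * d.X p m + s ^ 2 * d.X p m ^ 2) = 1 + s ^ 2 * d.v p := by
    rw [avgP_add, avgP_add, avgP_const hp.pos, avgP_mul_left, avgP_mul_left, d.mean p hp]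
    unfold Dat.v
    ring
  have h3 := Real.add_one_le_exp (s ^ 2 * d.v p)
  linarith

theorem exp_moment (d : Dat) (x : ℕ) {s : ℝ} (hs : |s| ≤ 1) :
    avgP (prim x) (fun m => Real.exp (s * d.S x m)) ≤ Real.exp (s ^ 2 * d.V x) := by
  have e : (fun m => Real.exp (s * d.S x m)) = fun m => ∏ p ∈ PP x, Real.exp (s * d.X p m) := by
    funext m
    rw [← Real.exp_sum]
    unfold Dat.S
    rw [Finset.mul_sum]
  rw [e]
  unfold prim
  rw [avgP_prod (PP x) (fun p hp => (mem_PP.1 hp).2) (fun p m => Real.exp (s * d.X p m))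
    (fun p hp m => by rw [d.per p (mem_PP.1 hp).2])]
  have h1 : ∏ p ∈ PP x, avgP p (fun m => Real.exp (s * d.X p m)) ≤
      ∏ p ∈ PP x, Real.exp (s ^ 2 * d.v p) := by
    apply Finset.prod_le_prod
    · intro p _
      exact avgP_nonneg' _ fun m => (Real.exp_pos _).le
    · intro p hp
      exact avgP_exp_le d (mem_PP.1 hp).2 hs
  refine h1.trans (le_of_eq ?_)
  rw [← Real.exp_sum]
  unfold Dat.V
  rw [Finset.mul_sum]

/-- even moments in the periodic model -/
theorem abs_moment (d : Dat) (x K : ℕ) {s : ℝ} (hs0 : 0 ≤ s) (hs : s ≤ 1) :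
    s ^ K / (K.factorial : ℝ) * avgP (prim x) (fun m => |d.S x m| ^ K) ≤
      2 * Real.exp (s ^ 2 * d.V x) := by
  have h1 : ∀ m, s ^ K / (K.factorial : ℝ) * |d.S x m| ^ K ≤
      Real.exp (s * d.S x m) + Real.exp (-s * d.S x m) := by
    intro m
    have h := Real.pow_div_factorial_le_exp (s * |d.S x m|) (by positivity) K
    rw [mul_pow] at h
    have h2 : Real.exp (s * |d.S x m|) ≤ Real.exp (s * d.S x m) + Real.exp (-s * d.S x m) := by
      rcases abs_cases (d.S x m) with ⟨h3, _⟩ | ⟨h3, _⟩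
      · rw [h3]
        have := Real.exp_pos (-s * d.S x m)
        linarith
      · rw [h3, show s * -d.S x m = -s * d.S x m by ring]
        have := Real.exp_pos (s * d.S x m)
        linarith
    calc s ^ K / (K.factorial : ℝ) * |d.S x m| ^ K = s ^ K * |d.S x m| ^ K / K.factorial := by ring
      _ ≤ _ := h.trans h2
  have h2 := avgP_mono (N := prim x) _ _ h1
  rw [avgP_mul_left, avgP_add] at h2
  have h3 := exp_moment d x (s := s) (by rwa [abs_of_nonneg hs0])
  have h4 := exp_moment d x (s := -s) (by rwa [abs_neg, abs_of_nonneg hs0])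
  rw [neg_sq] at h4
  linarith

lemma norm_prod_sub_prod {ι : Type*} (T : Finset ι) (a b : ι → ℂ) (ha : ∀ i ∈ T, ‖a i‖ ≤ 1)
    (hb : ∀ i ∈ T, ‖b i‖ ≤ 1) : ‖∏ i ∈ T, a i - ∏ i ∈ T, b i‖ ≤ ∑ i ∈ T, ‖a i - b i‖ := by
  classical
  induction T using Finset.induction_on with
  | empty => simp
  | insert i T hi ih =>
    rw [Finset.prod_insert hi, Finset.prod_insert hi, Finset.sum_insert hi]
    have h1 := ih (fun j hj => ha j (Finset.mem_insert_of_mem hj))
      (fun j hj => hb j (Finset.mem_insert_of_mem hj))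
    have h2 : ‖∏ j ∈ T, a j‖ ≤ 1 := by
      rw [norm_prod]
      exact Finset.prod_le_one (fun _ _ => norm_nonneg _)
        fun j hj => ha j (Finset.mem_insert_of_mem hj)
    have e : a i * ∏ j ∈ T, a j - b i * ∏ j ∈ T, b j =
        (a i - b i) * ∏ j ∈ T, a j + b i * (∏ j ∈ T, a j - ∏ j ∈ T, b j) := by ring
    rw [e]
    refine (norm_add_le _ _).trans ?_
    rw [norm_mul, norm_mul]
    have h3 : ‖a i - b i‖ * ‖∏ j ∈ T, a j‖ ≤ ‖a i - b i‖ * 1 :=
      mul_le_mul_of_nonneg_left h2 (norm_nonneg _)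
    have h4 : ‖b i‖ * ‖∏ j ∈ T, a j - ∏ j ∈ T, b j‖ ≤ 1 * ∑ j ∈ T, ‖a j - b j‖ :=
      mul_le_mul (hb i (Finset.mem_insert_self i T)) h1 (norm_nonneg _) zero_le_one
    linarith

lemma cexp_quad {θ : ℝ} (hθ : |θ| ≤ 1) :
    ‖Complex.exp (θ * Complex.I) - (1 + θ * Complex.I - ((θ ^ 2 / 2 : ℝ) : ℂ))‖ ≤ |θ| ^ 3 := by
  have hn : ‖(θ : ℂ) * Complex.I‖ = |θ| := by simp
  have h := Complex.exp_bound (x := (θ : ℂ) * Complex.I) (by rw [hn]; exact hθ) (n := 3) (by norm_num)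
  have e : ∑ m ∈ range 3, ((θ : ℂ) * Complex.I) ^ m / (m.factorial : ℂ) =
      1 + θ * Complex.I - ((θ ^ 2 / 2 : ℝ) : ℂ) := by
    simp [Finset.sum_range_succ, Nat.factorial]
    rw [mul_pow, Complex.I_sq]
    ring
  rw [e, hn] at h
  refine h.trans ?_
  have : (0 : ℝ) ≤ |θ| ^ 3 := by positivity
  norm_num [Nat.factorial]
  linarith

lemma avgP_cexp (d : Dat) {p : ℕ} (hp : p.Prime) {y : ℝ} (hy : |y| ≤ 1) :
    ‖avgP p (fun m => Complex.exp ((y * d.X p m : ℝ) * Complex.I)) -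
      Complex.exp (-((y ^ 2 * d.v p / 2 : ℝ) : ℂ))‖ ≤ 2 * |y| ^ 3 * d.v p := by
  have hp0 : (p : ℂ) ≠ 0 := by exact_mod_cast hp.pos.ne'
  have e1 : avgP p (fun m => (1 + ((y * d.X p m : ℝ) : ℂ) * Complex.I -
      (((y * d.X p m) ^ 2 / 2 : ℝ) : ℂ))) = 1 - ((y ^ 2 * d.v p / 2 : ℝ) : ℂ) := by
    rw [avgP_sub', avgP_add, avgP_const hp.pos]
    have h1 : avgP p (fun m => ((y * d.X p m : ℝ) : ℂ) * Complex.I) = 0 := by
      have hm := d.mean p hp
      unfold avgP at hm ⊢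
      rw [← Finset.sum_mul]
      have h2 : ∑ m ∈ range p, ((y * d.X p m : ℝ) : ℂ) = 0 := by
        rw [← Complex.ofReal_sum, ← Finset.mul_sum]
        rw [div_eq_zero_iff] at hm
        rcases hm with hm | hm
        · rw [hm, mul_zero, Complex.ofReal_zero]
        · exact absurd hm (by exact_mod_cast hp.pos.ne')
      rw [h2, zero_mul, zero_div]
    have h3 : avgP p (fun m => ((((y * d.X p m) ^ 2 / 2 : ℝ) : ℂ))) =
        ((y ^ 2 * d.v p / 2 : ℝ) : ℂ) := by
      unfold Dat.v avgP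
      rw [← Complex.ofReal_sum]
      have : ∑ m ∈ range p, (y * d.X p m) ^ 2 / 2 = y ^ 2 / 2 * ∑ m ∈ range p, d.X p m ^ 2 := by
        rw [Finset.mul_sum]
        exact Finset.sum_congr rfl fun m _ => by ring
      rw [this]
      push_cast
      ring
    rw [h1, h3, add_zero]
  have h2 : ‖avgP p (fun m => Complex.exp ((y * d.X p m : ℝ) * Complex.I)) -
      (1 - ((y ^ 2 * d.v p / 2 : ℝ) : ℂ))‖ ≤ |y| ^ 3 * d.v p := by
    rw [← e1, ← avgP_sub']
    have h3 := norm_avgP_le (N := p) (fun m => Complex.exp ((y * d.X p m : ℝ) * Complex.I) -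
      (1 + ((y * d.X p m : ℝ) : ℂ) * Complex.I - (((y * d.X p m) ^ 2 / 2 : ℝ) : ℂ)))
      (fun m => |y| ^ 3 * d.X p m ^ 2) (fun m => by
        have hb := d.bd p hp m
        have hb2 : |y * d.X p m| ≤ 1 := by
          rw [abs_mul]
          exact mul_le_one₀ hy (abs_nonneg _) hb
        refine (cexp_quad hb2).trans ?_
        rw [abs_mul, mul_pow, ← sq_abs (d.X p m)]
        apply mul_le_mul_of_nonneg_left _ (by positivity)
        exact pow_le_pow_of_le_one (abs_nonneg _) hb (by norm_num))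
    refine h3.trans (le_of_eq ?_)
    rw [avgP_mul_left]
    rfl
  have hv0 := d.v_nonneg p
  have hv1 := d.v_le_one hp
  have hy2 : y ^ 2 ≤ 1 := by rw [← sq_abs]; exact pow_le_one₀ (abs_nonneg _) hy
  have h4 : ‖(1 - ((y ^ 2 * d.v p / 2 : ℝ) : ℂ)) - Complex.exp (-((y ^ 2 * d.v p / 2 : ℝ) : ℂ))‖ ≤
      |y| ^ 3 * d.v p := by
    set z : ℝ := y ^ 2 * d.v p / 2 with hz
    have hz0 : 0 ≤ z := by positivity
    have hz1 : z ≤ 1 := by
      have : y ^ 2 * d.v p ≤ 1 := mul_le_one₀ hy2 hv0 hv1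
      rw [hz]; linarith
    have h5 := Real.abs_exp_sub_one_sub_id_le (x := -z) (by rw [abs_neg, abs_of_nonneg hz0]; exact hz1)
    have e : (1 - (z : ℂ)) - Complex.exp (-(z : ℂ)) = ((-(Real.exp (-z) - 1 - -z) : ℝ) : ℂ) := by
      push_cast
      ring
    rw [e, Complex.norm_real, Real.norm_eq_abs, abs_neg]
    refine h5.trans ?_
    rw [neg_sq, hz]
    have h6 : (y ^ 2 * d.v p / 2) ^ 2 = |y| ^ 3 * d.v p * (|y| * d.v p / 4) := by
      rw [← sq_abs y]
      ring
    rw [h6]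
    have h7 : |y| * d.v p / 4 ≤ 1 := by
      have : |y| * d.v p ≤ 1 := mul_le_one₀ hy hv0 hv1
      linarith
    exact mul_le_of_le_one_right (by positivity) h7
  have e2 : avgP p (fun m => Complex.exp ((y * d.X p m : ℝ) * Complex.I)) -
      Complex.exp (-((y ^ 2 * d.v p / 2 : ℝ) : ℂ)) =
      (avgP p (fun m => Complex.exp ((y * d.X p m : ℝ) * Complex.I)) -
        (1 - ((y ^ 2 * d.v p / 2 : ℝ) : ℂ))) +
      ((1 - ((y ^ 2 * d.v p / 2 : ℝ) : ℂ)) - Complex.exp (-((y ^ 2 * d.v p / 2 : ℝ) : ℂ))) := by ring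
  rw [e2]
  refine (norm_add_le _ _).trans ?_
  linarith

theorem char_periodic (d : Dat) (x : ℕ) {y : ℝ} (hy : |y| ≤ 1) :
    ‖avgP (prim x) (fun m => Complex.exp ((y * d.S x m : ℝ) * Complex.I)) -
      Complex.exp (-((y ^ 2 * d.V x / 2 : ℝ) : ℂ))‖ ≤ 2 * |y| ^ 3 * d.V x := by
  have e : (fun m => Complex.exp ((y * d.S x m : ℝ) * Complex.I)) =
      fun m => ∏ p ∈ PP x, Complex.exp ((y * d.X p m : ℝ) * Complex.I) := by
    funext m
    rw [← Complex.exp_sum]
    unfold Dat.S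
    rw [Finset.mul_sum, Complex.ofReal_sum, Finset.sum_mul]
  have e2 : Complex.exp (-((y ^ 2 * d.V x / 2 : ℝ) : ℂ)) =
      ∏ p ∈ PP x, Complex.exp (-((y ^ 2 * d.v p / 2 : ℝ) : ℂ)) := by
    rw [← Complex.exp_sum]
    unfold Dat.V
    congr 1
    push_cast
    rw [Finset.mul_sum, Finset.sum_div, Finset.sum_neg_distrib]
  rw [e, e2]
  unfold prim
  rw [avgP_prod (PP x) (fun p hp => (mem_PP.1 hp).2)
    (fun p m => Complex.exp ((y * d.X p m : ℝ) * Complex.I))
    (fun p hp m => by rw [d.per p (mem_PP.1 hp).2])]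
  refine (norm_prod_sub_prod _ _ _ ?_ ?_).trans ?_
  · intro p hp
    have h := norm_avgP_le (N := p) (fun m => Complex.exp ((y * d.X p m : ℝ) * Complex.I))
      (fun _ => 1) (fun m => le_of_eq (Complex.norm_exp_ofReal_mul_I _))
    rwa [avgP_const (mem_PP.1 hp).2.pos] at h
  · intro p hp
    rw [Complex.norm_exp]
    rw [Complex.neg_re, Complex.ofReal_re, Real.exp_le_one_iff]
    have := d.v_nonneg p
    have : 0 ≤ y ^ 2 * d.v p / 2 := by positivity
    linarith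
  · refine (Finset.sum_le_sum fun p hp => avgP_cexp d (mem_PP.1 hp).2 hy).trans (le_of_eq ?_)
    unfold Dat.V
    rw [Finset.mul_sum]

end Pool.Agent.N430.CLT
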