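import Pool.Agent.N430.CLT.Periodic

set_option autoImplicit false

/-! Moments of sums over primes of local conditions: comparison of the mean over an interval with the
mean over a period. -/

namespace Pool.Agent.N430.CLT

open Finset

/-- centred and bounded local conditions modulo all primes -/
structure Dat where
  X : ℕ → ℕ → ℝ
  per : ∀ p, p.Prime → ∀ m, X p (m + p) = X p m
  bd : ∀ p, p.Prime → ∀ m, |X p m| ≤ 1
  mean : ∀ p, p.Prime → avgP p (X p) = 0

/-- the primes `p ≤ x` -/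
def PP (x : ℕ) : Finset ℕ := (range (x + 1)).filter Nat.Prime

/-- the product of the primes `p ≤ x` -/
def prim (x : ℕ) : ℕ := ∏ p ∈ PP x, p

/-- local variance -/
noncomputable def Dat.v (d : Dat) (p : ℕ) : ℝ := avgP p (fun m => d.X p m ^ 2)

/-- the sum over `p ≤ x` -/
noncomputable def Dat.S (d : Dat) (x m : ℕ) : ℝ := ∑ p ∈ PP x, d.X p m

/-- the variance of the sum -/
noncomputable def Dat.V (d : Dat) (x : ℕ) : ℝ := ∑ p ∈ PP x, d.v p

lemma mem_PP {x p : ℕ} : p ∈ PP x ↔ p ≤ x ∧ p.Prime := by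
  unfold PP
  rw [mem_filter, mem_range, Nat.lt_succ_iff]

lemma prim_pos (x : ℕ) : 0 < prim x := Finset.prod_pos fun _ hp => (mem_PP.1 hp).2.pos

lemma card_PP_le (x : ℕ) : #(PP x) ≤ x := by
  have : PP x ⊆ Icc 1 x := by
    intro p hp
    rw [mem_PP] at hp
    exact mem_Icc.2 ⟨hp.2.one_le, hp.1⟩
  simpa using card_le_card this

section lin
variable {𝕜 : Type*} [RCLike 𝕜]

lemma avg_sum {ι : Type*} (N : ℕ) (s : Finset ι) (F : ι → ℕ → 𝕜) :
    avg N (fun m => ∑ i ∈ s, F i m) = ∑ i ∈ s, avg N (F i) := by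
  unfold avg
  rw [Finset.sum_comm, Finset.sum_div]

lemma avgP_sum {ι : Type*} (N : ℕ) (s : Finset ι) (F : ι → ℕ → 𝕜) :
    avgP N (fun m => ∑ i ∈ s, F i m) = ∑ i ∈ s, avgP N (F i) := by
  unfold avgP
  rw [Finset.sum_comm, Finset.sum_div]

lemma avg_mul_left (N : ℕ) (c : 𝕜) (F : ℕ → 𝕜) : avg N (fun m => c * F m) = c * avg N F := by
  unfold avg
  rw [← Finset.mul_sum, mul_div_assoc]

lemma avgP_mul_left (N : ℕ) (c : 𝕜) (F : ℕ → 𝕜) : avgP N (fun m => c * F m) = c * avgP N F := by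
  unfold avgP
  rw [← Finset.mul_sum, mul_div_assoc]

lemma avg_add (N : ℕ) (F G : ℕ → 𝕜) : avg N (fun m => F m + G m) = avg N F + avg N G := by
  unfold avg
  rw [Finset.sum_add_distrib, add_div]

lemma avgP_add (N : ℕ) (F G : ℕ → 𝕜) : avgP N (fun m => F m + G m) = avgP N F + avgP N G := by
  unfold avgP
  rw [Finset.sum_add_distrib, add_div]

lemma avg_sub' (N : ℕ) (F G : ℕ → 𝕜) : avg N (fun m => F m - G m) = avg N F - avg N G := by
  unfold avg
  rw [Finset.sum_sub_distrib, sub_div]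

lemma avgP_sub' (N : ℕ) (F G : ℕ → 𝕜) : avgP N (fun m => F m - G m) = avgP N F - avgP N G := by
  unfold avgP
  rw [Finset.sum_sub_distrib, sub_div]

lemma avg_const {N : ℕ} (hN : 0 < N) (c : 𝕜) : avg N (fun _ => c) = c := by
  unfold avg
  have : (N : 𝕜) ≠ 0 := by exact_mod_cast hN.ne'
  rw [Finset.sum_const, nsmul_eq_mul]
  simp
  field_simp

lemma avgP_const {N : ℕ} (hN : 0 < N) (c : 𝕜) : avgP N (fun _ => c) = c := by
  unfold avgP
  have : (N : 𝕜) ≠ 0 := by exact_mod_cast hN.ne'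
  rw [Finset.sum_const, nsmul_eq_mul]
  simp
  field_simp

lemma norm_avg_le {N : ℕ} (F : ℕ → 𝕜) (G : ℕ → ℝ) (h : ∀ m, ‖F m‖ ≤ G m) :
    ‖avg N F‖ ≤ avg N G := by
  unfold avg
  rw [norm_div, RCLike.norm_natCast]
  exact div_le_div_of_nonneg_right ((norm_sum_le _ _).trans (Finset.sum_le_sum fun m _ => h m))
    (Nat.cast_nonneg _)

lemma norm_avgP_le {N : ℕ} (F : ℕ → 𝕜) (G : ℕ → ℝ) (h : ∀ m, ‖F m‖ ≤ G m) :
    ‖avgP N F‖ ≤ avgP N G := by
  unfold avgP
  rw [norm_div, RCLike.norm_natCast]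
  exact div_le_div_of_nonneg_right ((norm_sum_le _ _).trans (Finset.sum_le_sum fun m _ => h m))
    (Nat.cast_nonneg _)

lemma avg_mono {N : ℕ} (F G : ℕ → ℝ) (h : ∀ m, F m ≤ G m) : avg N F ≤ avg N G := by
  unfold avg
  exact div_le_div_of_nonneg_right (Finset.sum_le_sum fun m _ => h m) (Nat.cast_nonneg _)

lemma avgP_mono {N : ℕ} (F G : ℕ → ℝ) (h : ∀ m, F m ≤ G m) : avgP N F ≤ avgP N G := by
  unfold avgP
  exact div_le_div_of_nonneg_right (Finset.sum_le_sum fun m _ => h m) (Nat.cast_nonneg _)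

lemma avg_nonneg' {N : ℕ} (F : ℕ → ℝ) (h : ∀ m, 0 ≤ F m) : 0 ≤ avg N F := by
  unfold avg
  exact div_nonneg (Finset.sum_nonneg fun m _ => h m) (Nat.cast_nonneg _)

lemma avgP_nonneg' {N : ℕ} (F : ℕ → ℝ) (h : ∀ m, 0 ≤ F m) : 0 ≤ avgP N F := by
  unfold avgP
  exact div_nonneg (Finset.sum_nonneg fun m _ => h m) (Nat.cast_nonneg _)

end lin

theorem moment (d : Dat) (j x N : ℕ) (hx : 1 ≤ x) (hN : 0 < N) :
    |avg N (fun m => d.S x m ^ j) - avgP (prim x) (fun m => d.S x m ^ j)| ≤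
      2 * (x : ℝ) ^ (2 * j) / N := by
  classical
  set A := Fintype.piFinset (fun _ : Fin j => PP x) with hA
  have e : (fun m => d.S x m ^ j) = fun m => ∑ v ∈ A, ∏ i, d.X (v i) m := by
    funext m
    have := Finset.prod_univ_sum (fun _ : Fin j => PP x) (fun _ (q : ℕ) => d.X q m)
    rw [hA, ← this]
    simp [Dat.S]
  rw [e, avg_sum, avgP_sum, ← Finset.sum_sub_distrib]
  have hN0 : (0 : ℝ) < N := by exact_mod_cast hN
  have hx1 : (1 : ℝ) ≤ x := by exact_mod_cast hx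
  have key : ∀ v ∈ A, |avg N (fun m => ∏ i, d.X (v i) m) -
      avgP (prim x) (fun m => ∏ i, d.X (v i) m)| ≤ 2 * (x : ℝ) ^ j / N := by
    intro v hv
    rw [hA, Fintype.mem_piFinset] at hv
    set T := (univ : Finset (Fin j)).image v with hT
    have hTP : T ⊆ PP x := by
      intro p hp
      rw [hT, mem_image] at hp
      obtain ⟨i, _, rfl⟩ := hp
      exact hv i
    set M := ∏ p ∈ T, p with hM
    have hdvd : ∀ i, v i ∣ M := fun i =>
      Finset.dvd_prod_of_mem _ (Finset.mem_image_of_mem v (mem_univ i))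
    have hper : ∀ m, ∏ i, d.X (v i) (m + M) = ∏ i, d.X (v i) m := fun m =>
      per_prod (univ : Finset (Fin j)) v (fun i => d.X (v i))
        (fun i _ => d.per _ (mem_PP.1 (hv i)).2) M (fun i _ => hdvd i) m
    have hMprim : M ∣ prim x := Finset.prod_dvd_prod_of_subset _ _ _ hTP
    have hM0 : 0 < M := Finset.prod_pos fun p hp => (mem_PP.1 (hTP hp)).2.pos
    have hMx : M ≤ x ^ j := by
      calc M ≤ ∏ _p ∈ T, x := Finset.prod_le_prod' fun p hp => (mem_PP.1 (hTP hp)).1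
        _ = x ^ #T := by simp
        _ ≤ x ^ j := Nat.pow_le_pow_right hx (by
          calc #T ≤ #(univ : Finset (Fin j)) := Finset.card_image_le
            _ = j := by simp)
    have hb : ∀ m, ‖∏ i, d.X (v i) m‖ ≤ 1 := by
      intro m
      rw [Real.norm_eq_abs, Finset.abs_prod]
      exact Finset.prod_le_one (fun _ _ => abs_nonneg _) fun i _ => d.bd _ (mem_PP.1 (hv i)).2 m
    rw [avgP_dvd hper hMprim (prim_pos x).ne']
    have := avg_sub_avgP hper hM0 hN hb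
    rw [Real.norm_eq_abs] at this
    refine this.trans ?_
    have h1 : (M : ℝ) ≤ (x : ℝ) ^ j := by exact_mod_cast hMx
    gcongr
  refine (Finset.abs_sum_le_sum_abs _ _).trans ((Finset.sum_le_sum key).trans ?_)
  rw [Finset.sum_const, nsmul_eq_mul]
  have hcard : (#A : ℝ) ≤ (x : ℝ) ^ j := by
    rw [hA, Fintype.card_piFinset]
    simp only [prod_const, card_univ, Fintype.card_fin]
    push_cast
    exact pow_le_pow_left₀ (Nat.cast_nonneg _) (by exact_mod_cast card_PP_le x) j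
  have h2 : (x : ℝ) ^ (2 * j) = x ^ j * x ^ j := by rw [two_mul, pow_add]
  rw [h2]
  calc (#A : ℝ) * (2 * (x : ℝ) ^ j / N) ≤ (x : ℝ) ^ j * (2 * (x : ℝ) ^ j / N) := by gcongr
    _ = _ := by ring

end Pool.Agent.N430.CLT
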