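import Mathlib

set_option autoImplicit false

/-! Averages of periodic functions, products over coprime moduli, moments. -/

namespace Pool.Agent.N430.CLT

open Finset

variable {𝕜 : Type*} [RCLike 𝕜]

/-- the mean value over `1 ≤ m ≤ N` -/
noncomputable def avg (N : ℕ) (F : ℕ → 𝕜) : 𝕜 := (∑ m ∈ Icc 1 N, F m) / N

/-- the mean value over a period -/
noncomputable def avgP (M : ℕ) (F : ℕ → 𝕜) : 𝕜 := (∑ m ∈ range M, F m) / M

lemma per_mul {M : ℕ} {F : ℕ → 𝕜} (h : ∀ m, F (m + M) = F m) (k m : ℕ) : F (m + M * k) = F m := by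
  induction k with
  | zero => simp
  | succ k ih => rw [Nat.mul_succ, ← add_assoc, h, ih]

lemma sum_per_shift {M : ℕ} {F : ℕ → 𝕜} (h : ∀ m, F (m + M) = F m) :
    ∑ m ∈ range M, F (m + 1) = ∑ m ∈ range M, F m := by
  have h1 := Finset.sum_range_succ F M
  have h2 := Finset.sum_range_succ' F M
  have h3 : F M = F 0 := by simpa using h 0
  rw [h1, h3] at h2
  exact (add_right_cancel h2).symm

lemma sum_per_mul {M : ℕ} {F : ℕ → 𝕜} (h : ∀ m, F (m + M) = F m) (k : ℕ) :
    ∑ m ∈ range (M * k), F m = k * ∑ m ∈ range M, F m := by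
  induction k with
  | zero => simp
  | succ k ih =>
    rw [Nat.mul_succ, Finset.sum_range_add, ih]
    have : ∀ i ∈ range M, F (M * k + i) = F i := fun i _ => by rw [add_comm, per_mul h]
    rw [Finset.sum_congr rfl this]
    push_cast
    ring

lemma avgP_mul {M : ℕ} {F : ℕ → 𝕜} (h : ∀ m, F (m + M) = F m) (k : ℕ) (hk : k ≠ 0) :
    avgP (M * k) F = avgP M F := by
  unfold avgP
  rw [sum_per_mul h]
  have hk' : (k : 𝕜) ≠ 0 := by exact_mod_cast hk
  push_cast
  rcases eq_or_ne (M : 𝕜) 0 with hM | hM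
  · rw [hM]; simp
  · field_simp

lemma avgP_dvd {M M' : ℕ} {F : ℕ → 𝕜} (h : ∀ m, F (m + M) = F m) (hd : M ∣ M') (h0 : M' ≠ 0) :
    avgP M' F = avgP M F := by
  obtain ⟨k, rfl⟩ := hd
  exact avgP_mul h k (by rintro rfl; simp at h0)

/-- comparison of the two means -/
lemma avg_sub_avgP {M N : ℕ} {F : ℕ → 𝕜} (h : ∀ m, F (m + M) = F m) (hM : 0 < M) (hN : 0 < N)
    (hF : ∀ m, ‖F m‖ ≤ 1) : ‖avg N F - avgP M F‖ ≤ 2 * M / N := by
  set G : ℕ → 𝕜 := fun m => F (m + 1) with hG
  have hGp : ∀ m, G (m + M) = G m := by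
    intro m
    simp only [hG]
    rw [show m + M + 1 = (m + 1) + M by ring, h]
  have e1 : ∑ m ∈ Icc 1 N, F m = ∑ m ∈ range N, G m := by
    rw [Finset.range_eq_Ico, Finset.sum_Ico_add' F 0 N 1]
    rfl
  set k := N / M with hk
  set r := N % M with hr
  have hNkr : N = M * k + r := (Nat.div_add_mod N M).symm
  have hrM : r < M := Nat.mod_lt _ hM
  have e2 : ∑ m ∈ range N, G m = k * ∑ m ∈ range M, F m + ∑ m ∈ range r, G m := by
    rw [hNkr, Finset.sum_range_add, sum_per_mul hGp, sum_per_shift h]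
    congr 1
    exact Finset.sum_congr rfl fun i _ => by rw [add_comm, per_mul hGp]
  have hN0 : (0 : ℝ) < N := by exact_mod_cast hN
  have hM0 : (0 : ℝ) < M := by exact_mod_cast hM
  have hN1 : (N : 𝕜) ≠ 0 := by exact_mod_cast hN.ne'
  have hM1 : (M : 𝕜) ≠ 0 := by exact_mod_cast hM.ne'
  have e3 : avg N F - avgP M F = (∑ m ∈ range r, G m - (r : 𝕜) * avgP M F) / N := by
    unfold avg avgP
    rw [e1, e2]
    have : (N : 𝕜) = M * k + r := by exact_mod_cast congrArg (Nat.cast (R := 𝕜)) hNkr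
    field_simp
    rw [this]
    ring
  have h4 : ‖∑ m ∈ range r, G m‖ ≤ r := by
    refine (norm_sum_le _ _).trans ?_
    refine (Finset.sum_le_sum (fun m _ => hF (m + 1))).trans ?_
    simp
  have h5 : ‖avgP M F‖ ≤ 1 := by
    unfold avgP
    rw [norm_div, RCLike.norm_natCast, div_le_one hM0]
    refine (norm_sum_le _ _).trans ?_
    refine (Finset.sum_le_sum (fun m _ => hF m)).trans ?_
    simp
  rw [e3, norm_div, RCLike.norm_natCast]
  apply div_le_div_of_nonneg_right _ hN0.le
  refine (norm_sub_le _ _).trans ?_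
  rw [norm_mul, RCLike.norm_natCast]
  have h6 : (r : ℝ) ≤ M := by exact_mod_cast hrM.le
  have h7 : (r : ℝ) * ‖avgP M F‖ ≤ r * 1 := mul_le_mul_of_nonneg_left h5 (Nat.cast_nonneg _)
  linarith

/-- two coprime moduli -/
lemma sum_coprime {M q : ℕ} {F h : ℕ → 𝕜} (hF : ∀ m, F (m + M) = F m) (hh : ∀ m, h (m + q) = h m)
    (hc : Nat.Coprime M q) (hq : 0 < q) :
    ∑ m ∈ range (M * q), F m * h m = (∑ m ∈ range M, F m) * ∑ a ∈ range q, h a := by
  have hmod : ∀ n, h n = h (n % q) := by
    intro n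
    conv_lhs => rw [← Nat.mod_add_div n q]
    rw [per_mul hh]
  have inner : ∀ i, ∑ j ∈ range q, h (i + M * j) = ∑ a ∈ range q, h a := by
    intro i
    have e : ∀ j ∈ range q, h (i + M * j) = h ((i + M * j) % q) := fun j _ => hmod _
    rw [Finset.sum_congr rfl e]
    have hinj : Set.InjOn (fun j => (i + M * j) % q) (range q : Finset ℕ) := by
      intro a ha b hb hab
      rw [Finset.coe_range, Set.mem_Iio] at ha hb
      have h1 : i + M * a ≡ i + M * b [MOD q] := hab
      have h2 : M * a ≡ M * b [MOD q] := Nat.ModEq.add_left_cancel' i h1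
      have h3 : a ≡ b [MOD q] := Nat.ModEq.cancel_left_of_coprime (by rwa [Nat.coprime_comm] at hc) h2
      exact Nat.ModEq.eq_of_lt_of_lt h3 ha hb
    have himg : (range q).image (fun j => (i + M * j) % q) = range q := by
      apply Finset.eq_of_subset_of_card_le
      · intro a ha
        rw [Finset.mem_image] at ha
        obtain ⟨j, _, rfl⟩ := ha
        exact Finset.mem_range.2 (Nat.mod_lt _ hq)
      · rw [Finset.card_image_of_injOn hinj]
    conv_rhs => rw [← himg]
    rw [Finset.sum_image hinj]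
  have key : ∀ k, ∑ m ∈ range (M * k), F m * h m =
      ∑ i ∈ range M, F i * ∑ j ∈ range k, h (i + M * j) := by
    intro k
    induction k with
    | zero => simp
    | succ k ih =>
      rw [Nat.mul_succ, Finset.sum_range_add, ih, ← Finset.sum_add_distrib]
      refine Finset.sum_congr rfl fun i _ => ?_
      rw [Finset.sum_range_succ, add_comm (M * k) i, per_mul hF]
      ring
  rw [key, Finset.sum_mul]
  exact Finset.sum_congr rfl fun i _ => by rw [inner]

lemma per_prod {ι : Type*} (T : Finset ι) (q : ι → ℕ) (h : ι → ℕ → 𝕜)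
    (hh : ∀ i ∈ T, ∀ m, h i (m + q i) = h i m) (M : ℕ) (hM : ∀ i ∈ T, q i ∣ M) (m : ℕ) :
    ∏ i ∈ T, h i (m + M) = ∏ i ∈ T, h i m := by
  refine Finset.prod_congr rfl fun i hi => ?_
  obtain ⟨k, hk⟩ := hM i hi
  rw [hk, per_mul (hh i hi)]

/-- product formula -/
lemma avgP_prod (T : Finset ℕ) (hT : ∀ p ∈ T, p.Prime) (h : ℕ → ℕ → 𝕜)
    (hh : ∀ p ∈ T, ∀ m, h p (m + p) = h p m) :
    avgP (∏ p ∈ T, p) (fun m => ∏ p ∈ T, h p m) = ∏ p ∈ T, avgP p (h p) := by
  classical
  induction T using Finset.induction_on with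
  | empty => simp [avgP]
  | insert p T hp ih =>
    have hT' : ∀ p ∈ T, p.Prime := fun q hq => hT q (Finset.mem_insert_of_mem hq)
    have hpp := hT p (Finset.mem_insert_self p T)
    rw [Finset.prod_insert hp, Finset.prod_insert hp,
      ← ih hT' (fun q hq => hh q (Finset.mem_insert_of_mem hq))]
    have hc : Nat.Coprime (∏ q ∈ T, q) p := by
      apply Nat.Coprime.prod_left
      intro q hq
      exact (Nat.coprime_primes (hT' q hq) hpp).2 (by rintro rfl; exact hp hq)
    have e : ∀ m ∈ range (p * ∏ q ∈ T, q), ∏ q ∈ insert p T, h q m =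
        (∏ q ∈ T, h q m) * h p m := by
      intro m _
      rw [Finset.prod_insert hp, mul_comm]
    unfold avgP
    rw [Finset.sum_congr rfl e, mul_comm p, sum_coprime
      (per_prod T (fun q => q) h (fun q hq => hh q (Finset.mem_insert_of_mem hq)) _
        (fun q hq => Finset.dvd_prod_of_mem _ hq))
      (hh p (Finset.mem_insert_self p T)) hc hpp.pos]
    push_cast
    rw [div_mul_div_comm, mul_comm (∑ m ∈ range p, h p m), mul_comm (p : 𝕜)]

end Pool.Agent.N430.CLT
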