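import Pool.Agent.N430.CLT.Char

set_option autoImplicit false

/-! The characteristic function over an interval. -/

namespace Pool.Agent.N430.CLT

open Finset

/-- the remainder of the exponential series -/
noncomputable def rem (K : ℕ) (s : ℝ) : ℂ :=
  Complex.exp (s * Complex.I) - ∑ j ∈ range K, ((s : ℂ) * Complex.I) ^ j / (j.factorial : ℂ)

lemma rem_zero_arg (K : ℕ) : rem (K + 1) 0 = 0 := by
  unfold rem
  rw [Finset.sum_range_succ']
  simp

lemma rem_succ (K : ℕ) (s : ℝ) :
    rem (K + 1) s = rem K s - ((s : ℂ) * Complex.I) ^ K / (K.factorial : ℂ) := by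
  unfold rem
  rw [Finset.sum_range_succ]
  ring

lemma hasDerivAt_pow_term (K : ℕ) (s : ℝ) :
    HasDerivAt (fun u : ℝ => ((u : ℂ) * Complex.I) ^ (K + 1) / ((K + 1).factorial : ℂ))
      (Complex.I * (((s : ℂ) * Complex.I) ^ K / (K.factorial : ℂ))) s := by
  have h1 : HasDerivAt (fun u : ℝ => (u : ℂ) * Complex.I) Complex.I s := by
    simpa using (Complex.ofRealCLM.hasDerivAt (x := s)).mul_const Complex.I
  have h2 := (h1.fun_pow (K + 1)).div_const ((K + 1).factorial : ℂ)
  refine h2.congr_deriv ?_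
  rw [Nat.factorial_succ]
  push_cast
  have h3 : ((K : ℂ) + 1) ≠ 0 := by exact_mod_cast Nat.succ_ne_zero K
  have h4 : (K.factorial : ℂ) ≠ 0 := by exact_mod_cast K.factorial_ne_zero
  field_simp

lemma hasDerivAt_rem (K : ℕ) (s : ℝ) : HasDerivAt (rem (K + 1)) (Complex.I * rem K s) s := by
  induction K generalizing s with
  | zero =>
    have e : rem (0 + 1) = fun u : ℝ => Complex.exp (u * Complex.I) - 1 := by
      funext u
      simp [rem]
    rw [e]
    have h1 : HasDerivAt (fun u : ℝ => (u : ℂ) * Complex.I) Complex.I s := by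
      simpa using (Complex.ofRealCLM.hasDerivAt (x := s)).mul_const Complex.I
    have h2 := (h1.cexp).sub_const 1
    refine h2.congr_deriv ?_
    simp [rem]
    ring
  | succ K ih =>
    have e : rem (K + 1 + 1) = fun u : ℝ => rem (K + 1) u -
        ((u : ℂ) * Complex.I) ^ (K + 1) / ((K + 1).factorial : ℂ) := by
      funext u
      exact rem_succ (K + 1) u
    rw [e]
    refine ((ih s).fun_sub (hasDerivAt_pow_term K s)).congr_deriv ?_
    rw [rem_succ K s]
    ring

lemma norm_rem_le_nonneg (K : ℕ) : ∀ s : ℝ, 0 ≤ s → ‖rem K s‖ ≤ s ^ K / (K.factorial : ℝ) := by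
  induction K with
  | zero =>
    intro s _
    simp [rem]
  | succ K ih =>
    intro s hs
    have hB : ∀ u : ℝ, HasDerivAt (fun u : ℝ => u ^ (K + 1) / ((K + 1).factorial : ℝ))
        (u ^ K / (K.factorial : ℝ)) u := by
      intro u
      have h2 := (hasDerivAt_pow (K + 1) u).div_const ((K + 1).factorial : ℝ)
      refine h2.congr_deriv ?_
      rw [Nat.factorial_succ]
      push_cast
      have h3 : ((K : ℝ) + 1) ≠ 0 := by positivity
      have h4 : (K.factorial : ℝ) ≠ 0 := by exact_mod_cast K.factorial_ne_zero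
      field_simp
    have := image_norm_le_of_norm_deriv_right_le_deriv_boundary (a := 0) (b := s)
      (f := rem (K + 1)) (f' := fun u => Complex.I * rem K u)
      (B := fun u : ℝ => u ^ (K + 1) / ((K + 1).factorial : ℝ))
      (B' := fun u => u ^ K / (K.factorial : ℝ))
      (fun u _ => (hasDerivAt_rem K u).continuousAt.continuousWithinAt)
      (fun u _ => (hasDerivAt_rem K u).hasDerivWithinAt)
      (by rw [rem_zero_arg]; simp) hB
      (fun u hu => by
        rw [norm_mul, Complex.norm_I, one_mul]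
        exact ih u hu.1)
    exact this (Set.right_mem_Icc.2 hs)

lemma rem_neg (K : ℕ) (s : ℝ) : rem K (-s) = (starRingEnd ℂ) (rem K s) := by
  unfold rem
  rw [map_sub, map_sum, ← Complex.exp_conj]
  simp only [map_mul, Complex.conj_ofReal, Complex.conj_I, map_div₀, map_pow, Complex.conj_natCast,
    Complex.ofReal_neg, neg_mul, mul_neg]

/-- `|e^{is} - ∑_{j < K} (is)^j / j!| ≤ |s|^K / K!` -/
lemma norm_rem_le (K : ℕ) (s : ℝ) : ‖rem K s‖ ≤ |s| ^ K / (K.factorial : ℝ) := by
  rcases le_total 0 s with h | h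
  · rw [abs_of_nonneg h]
    exact norm_rem_le_nonneg K s h
  · have h1 := norm_rem_le_nonneg K (-s) (by linarith)
    rw [rem_neg, Complex.norm_conj] at h1
    rwa [abs_of_nonpos h]

theorem compare (d : Dat) (x N K : ℕ) (hx : 1 ≤ x) (hN : 0 < N) (hK : Even K) {y : ℝ}
    (hy : |y| ≤ 1) :
    ‖avg N (fun m => Complex.exp ((y * d.S x m : ℝ) * Complex.I)) -
      avgP (prim x) (fun m => Complex.exp ((y * d.S x m : ℝ) * Complex.I))‖ ≤
      2 * (K + 1) * (x : ℝ) ^ (2 * K) / N +
        2 * (|y| ^ K / (K.factorial : ℝ) * avgP (prim x) (fun m => |d.S x m| ^ K)) := by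
  have hN0 : (0 : ℝ) < N := by exact_mod_cast hN
  have hx1 : (1 : ℝ) ≤ x := by exact_mod_cast hx
  have e : ∀ m, Complex.exp ((y * d.S x m : ℝ) * Complex.I) =
      ∑ j ∈ range K, ((y : ℂ) * Complex.I) ^ j / (j.factorial : ℂ) * ((d.S x m ^ j : ℝ) : ℂ) +
        rem K (y * d.S x m) := by
    intro m
    have : ∑ j ∈ range K, ((y : ℂ) * Complex.I) ^ j / (j.factorial : ℂ) * ((d.S x m ^ j : ℝ) : ℂ) =
        ∑ j ∈ range K, (((y * d.S x m : ℝ) : ℂ) * Complex.I) ^ j / (j.factorial : ℂ) := by
      refine Finset.sum_congr rfl fun j _ => ?_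
      push_cast
      ring
    rw [this]
    unfold rem
    ring
  have hreal : ∀ (j : ℕ), avg N (fun m => ((d.S x m ^ j : ℝ) : ℂ)) =
      ((avg N (fun m => d.S x m ^ j) : ℝ) : ℂ) := by
    intro j
    unfold avg
    push_cast
    rfl
  have hrealP : ∀ (j : ℕ), avgP (prim x) (fun m => ((d.S x m ^ j : ℝ) : ℂ)) =
      ((avgP (prim x) (fun m => d.S x m ^ j) : ℝ) : ℂ) := by
    intro j
    unfold avgP
    push_cast
    rfl
  have e1 : avg N (fun m => Complex.exp ((y * d.S x m : ℝ) * Complex.I)) =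
      ∑ j ∈ range K, ((y : ℂ) * Complex.I) ^ j / (j.factorial : ℂ) *
        ((avg N (fun m => d.S x m ^ j) : ℝ) : ℂ) + avg N (fun m => rem K (y * d.S x m)) := by
    rw [show (fun m => Complex.exp ((y * d.S x m : ℝ) * Complex.I)) = fun m =>
      ∑ j ∈ range K, ((y : ℂ) * Complex.I) ^ j / (j.factorial : ℂ) * ((d.S x m ^ j : ℝ) : ℂ) +
        rem K (y * d.S x m) from funext e, avg_add, avg_sum]
    congr 1
    refine Finset.sum_congr rfl fun j _ => ?_
    rw [avg_mul_left, hreal]
  have e2 : avgP (prim x) (fun m => Complex.exp ((y * d.S x m : ℝ) * Complex.I)) =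
      ∑ j ∈ range K, ((y : ℂ) * Complex.I) ^ j / (j.factorial : ℂ) *
        ((avgP (prim x) (fun m => d.S x m ^ j) : ℝ) : ℂ) +
        avgP (prim x) (fun m => rem K (y * d.S x m)) := by
    rw [show (fun m => Complex.exp ((y * d.S x m : ℝ) * Complex.I)) = fun m =>
      ∑ j ∈ range K, ((y : ℂ) * Complex.I) ^ j / (j.factorial : ℂ) * ((d.S x m ^ j : ℝ) : ℂ) +
        rem K (y * d.S x m) from funext e, avgP_add, avgP_sum]
    congr 1
    refine Finset.sum_congr rfl fun j _ => ?_
    rw [avgP_mul_left, hrealP]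
  have e3 : avg N (fun m => Complex.exp ((y * d.S x m : ℝ) * Complex.I)) -
      avgP (prim x) (fun m => Complex.exp ((y * d.S x m : ℝ) * Complex.I)) =
      ∑ j ∈ range K, ((y : ℂ) * Complex.I) ^ j / (j.factorial : ℂ) *
        ((avg N (fun m => d.S x m ^ j) - avgP (prim x) (fun m => d.S x m ^ j) : ℝ) : ℂ) +
      (avg N (fun m => rem K (y * d.S x m)) - avgP (prim x) (fun m => rem K (y * d.S x m))) := by
    rw [e1, e2]
    have : ∀ j ∈ range K, ((y : ℂ) * Complex.I) ^ j / (j.factorial : ℂ) *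
        ((avg N (fun m => d.S x m ^ j) - avgP (prim x) (fun m => d.S x m ^ j) : ℝ) : ℂ) =
        ((y : ℂ) * Complex.I) ^ j / (j.factorial : ℂ) * ((avg N (fun m => d.S x m ^ j) : ℝ) : ℂ) -
        ((y : ℂ) * Complex.I) ^ j / (j.factorial : ℂ) *
          ((avgP (prim x) (fun m => d.S x m ^ j) : ℝ) : ℂ) := by
      intro j _
      push_cast
      ring
    rw [Finset.sum_congr rfl this, Finset.sum_sub_distrib]
    ring
  set B : ℝ := 2 * (x : ℝ) ^ (2 * K) / N with hB
  have hB0 : 0 ≤ B := by positivity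
  have h1 : ‖∑ j ∈ range K, ((y : ℂ) * Complex.I) ^ j / (j.factorial : ℂ) *
        ((avg N (fun m => d.S x m ^ j) - avgP (prim x) (fun m => d.S x m ^ j) : ℝ) : ℂ)‖ ≤ K * B := by
    refine (norm_sum_le _ _).trans ?_
    have : ∀ j ∈ range K, ‖((y : ℂ) * Complex.I) ^ j / (j.factorial : ℂ) *
        ((avg N (fun m => d.S x m ^ j) - avgP (prim x) (fun m => d.S x m ^ j) : ℝ) : ℂ)‖ ≤ B := by
      intro j hj
      rw [mem_range] at hj
      rw [norm_mul, norm_div, norm_pow, norm_mul, Complex.norm_real, Complex.norm_I, mul_one,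
        Complex.norm_natCast, Complex.norm_real, Real.norm_eq_abs, Real.norm_eq_abs]
      have h2 := moment d j x N hx hN
      have h3 : |y| ^ j / (j.factorial : ℝ) ≤ 1 := by
        rw [div_le_one (by exact_mod_cast j.factorial_pos)]
        calc |y| ^ j ≤ 1 := pow_le_one₀ (abs_nonneg _) hy
          _ ≤ _ := by exact_mod_cast j.factorial_pos
      have h4 : 2 * (x : ℝ) ^ (2 * j) / N ≤ B := by
        rw [hB]
        gcongr
      calc |y| ^ j / (j.factorial : ℝ) * |avg N (fun m => d.S x m ^ j) -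
            avgP (prim x) (fun m => d.S x m ^ j)| ≤ 1 * B :=
            mul_le_mul h3 (h2.trans h4) (abs_nonneg _) zero_le_one
        _ = B := one_mul _
    refine (Finset.sum_le_sum this).trans ?_
    simp
  have habs : ∀ m, d.S x m ^ K = |d.S x m| ^ K := fun m => (hK.pow_abs _).symm
  have h5 : ‖avg N (fun m => rem K (y * d.S x m))‖ ≤
      |y| ^ K / (K.factorial : ℝ) * avg N (fun m => d.S x m ^ K) := by
    have := norm_avg_le (N := N) (fun m => rem K (y * d.S x m))
      (fun m => |y| ^ K / (K.factorial : ℝ) * d.S x m ^ K) (fun m => by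
        refine (norm_rem_le K _).trans (le_of_eq ?_)
        rw [abs_mul, mul_pow, habs]
        ring)
    rwa [avg_mul_left] at this
  have h6 : ‖avgP (prim x) (fun m => rem K (y * d.S x m))‖ ≤
      |y| ^ K / (K.factorial : ℝ) * avgP (prim x) (fun m => d.S x m ^ K) := by
    have := norm_avgP_le (N := prim x) (fun m => rem K (y * d.S x m))
      (fun m => |y| ^ K / (K.factorial : ℝ) * d.S x m ^ K) (fun m => by
        refine (norm_rem_le K _).trans (le_of_eq ?_)
        rw [abs_mul, mul_pow, habs]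
        ring)
    rwa [avgP_mul_left] at this
  have h7 := (abs_le.1 (moment d K x N hx hN)).2
  have hc0 : 0 ≤ |y| ^ K / (K.factorial : ℝ) := by positivity
  have hc1 : |y| ^ K / (K.factorial : ℝ) ≤ 1 := by
    rw [div_le_one (by exact_mod_cast K.factorial_pos)]
    calc |y| ^ K ≤ 1 := pow_le_one₀ (abs_nonneg _) hy
      _ ≤ _ := by exact_mod_cast K.factorial_pos
  have h8 : avg N (fun m => d.S x m ^ K) ≤ avgP (prim x) (fun m => d.S x m ^ K) + B := by
    rw [hB]; linarith
  have h9 : |y| ^ K / (K.factorial : ℝ) * avg N (fun m => d.S x m ^ K) ≤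
      |y| ^ K / (K.factorial : ℝ) * avgP (prim x) (fun m => d.S x m ^ K) + B := by
    calc _ ≤ |y| ^ K / (K.factorial : ℝ) * (avgP (prim x) (fun m => d.S x m ^ K) + B) :=
          mul_le_mul_of_nonneg_left h8 hc0
      _ ≤ _ := by
          rw [mul_add]
          have := mul_le_mul_of_nonneg_right hc1 hB0
          linarith
  rw [e3]
  refine (norm_add_le _ _).trans ?_
  have h10 := norm_sub_le (avg N (fun m => rem K (y * d.S x m)))
    (avgP (prim x) (fun m => rem K (y * d.S x m)))
  have h11 : avgP (prim x) (fun m => d.S x m ^ K) = avgP (prim x) (fun m => |d.S x m| ^ K) := by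
    congr 1
    funext m
    exact habs m
  rw [← h11]
  have h12 : 2 * ((K : ℝ) + 1) * (x : ℝ) ^ (2 * K) / N = (K + 1) * B := by rw [hB]; ring
  rw [h12]
  nlinarith

end Pool.Agent.N430.CLT
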